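import Pool.Agent.Y841.CM.Rig

/-! Sharp Chang–Marshall inequality for functions with a zero of order `m`, with the Dirichlet
integral in the exponent: `∫ exp (|f|²) ≤ 2 π exp (𝕁(f)² / m)`, equality only for `c z ^ m`. -/

open MeasureTheory Complex Filter Topology Set Metric
open scoped ComplexConjugate Real

noncomputable section

namespace Pool.Agent.Y841.CM

open _root_.CM

/-- the normalised Dirichlet integral `∬ |f'|² dx dy / π` as a real number -/
def dd (f : ℂ → ℂ) : ℝ :=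
  (∫⁻ z in ball (0:ℂ) 1, ENNReal.ofReal (‖deriv f z‖ ^ 2)).toReal / π

variable {f : ℂ → ℂ}

lemma dd_nonneg : 0 ≤ dd f := by unfold dd; positivity

lemma dd_le_one (hf : Adm f) : dd f ≤ 1 := by
  unfold dd
  rw [div_le_one Real.pi_pos]
  have := ENNReal.toReal_mono ENNReal.ofReal_ne_top hf.2.2
  rwa [ENNReal.toReal_ofReal Real.pi_pos.le] at this

lemma Ef_le_dd (hf : Adm f) {r : ℝ} (hr : r ∈ Ioo (0:ℝ) 1) : Ef f r ≤ dd f := by
  have h := Ef_le_dirichlet f hf.1 r hr.1 hr.2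
  have hfin : ∫⁻ z in ball (0:ℂ) 1, ENNReal.ofReal (‖deriv f z‖ ^ 2) ≠ ⊤ :=
    (hf.2.2.trans_lt ENNReal.ofReal_lt_top).ne
  rw [ENNReal.ofReal_le_iff_le_toReal hfin] at h
  unfold dd
  rw [le_div_iff₀ Real.pi_pos]
  linarith

lemma exp_mul_le {E t : ℝ} (h0 : 0 ≤ E) (h1 : E ≤ 1) :
    Real.exp (E * t) ≤ 1 + E * (Real.exp t - 1) := by
  have h := convexOn_exp.2 (mem_univ t) (mem_univ 0) h0 (by linarith : 0 ≤ 1 - E) (by ring)
  simp only [smul_eq_mul, mul_zero, add_zero, Real.exp_zero, mul_one] at h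
  linarith

/-- the bound on one circle -/
lemma circle_bound (hf : DifferentiableOn ℂ f (ball 0 1)) {r : ℝ} (hr : r ∈ Ioo (0:ℝ) 1)
    (hE : 0 < Ef f r) (hE1 : Ef f r ≤ 1) (b : ℝ) :
    ∫ θ in (0:ℝ)..(2 * π), Real.exp (‖f (circleMap 0 r θ)‖ ^ 2) ≤
      2 * π * (Real.exp (Ef f r * b) * (1 + Ef f r * (Psi f r * Real.exp (-b) - 1))) := by
  have hpi := Real.pi_pos
  have cF := contF hf hr.1 hr.2
  have hP : ∫ θ in (0:ℝ)..(2 * π), Real.exp (‖f (circleMap 0 r θ)‖ ^ 2 / Ef f r) =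
      2 * π * Psi f r := by
    unfold Psi
    field_simp
  have i1 : IntervalIntegrable (fun θ => Real.exp (‖f (circleMap 0 r θ)‖ ^ 2)) volume 0 (2 * π) :=
    Continuous.intervalIntegrable (Real.continuous_exp.comp (cF.norm.pow 2)) _ _
  have i2 : IntervalIntegrable (fun θ => Real.exp (‖f (circleMap 0 r θ)‖ ^ 2 / Ef f r)) volume 0
      (2 * π) :=
    Continuous.intervalIntegrable (Real.continuous_exp.comp ((cF.norm.pow 2).div_const _)) _ _
  have i3 : IntervalIntegrable (fun θ => Real.exp (Ef f r * b) * (1 - Ef f r) +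
      Real.exp (Ef f r * b) * Ef f r * Real.exp (-b) *
        Real.exp (‖f (circleMap 0 r θ)‖ ^ 2 / Ef f r)) volume 0 (2 * π) :=
    (continuous_const.intervalIntegrable _ _).add (i2.const_mul _)
  have h1 : ∫ θ in (0:ℝ)..(2 * π), Real.exp (‖f (circleMap 0 r θ)‖ ^ 2) ≤
      ∫ θ in (0:ℝ)..(2 * π), (Real.exp (Ef f r * b) * (1 - Ef f r) +
        Real.exp (Ef f r * b) * Ef f r * Real.exp (-b) *
          Real.exp (‖f (circleMap 0 r θ)‖ ^ 2 / Ef f r)) := by
    apply intervalIntegral.integral_mono_on (by positivity) i1 i3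
    intro θ _
    set x := ‖f (circleMap 0 r θ)‖ ^ 2 with hx
    have e1 : Real.exp x = Real.exp (Ef f r * b) * Real.exp (Ef f r * (x / Ef f r - b)) := by
      rw [← Real.exp_add]
      congr 1
      field_simp
      ring
    have e2 : Real.exp (x / Ef f r - b) = Real.exp (x / Ef f r) * Real.exp (-b) := by
      rw [← Real.exp_add]; congr 1
    rw [e1]
    have h2 := exp_mul_le (t := x / Ef f r - b) hE.le hE1
    rw [e2] at h2
    calc Real.exp (Ef f r * b) * Real.exp (Ef f r * (x / Ef f r - b))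
        ≤ Real.exp (Ef f r * b) * (1 + Ef f r * (Real.exp (x / Ef f r) * Real.exp (-b) - 1)) :=
          mul_le_mul_of_nonneg_left h2 (Real.exp_pos _).le
      _ = _ := by ring
  refine h1.trans (le_of_eq ?_)
  rw [intervalIntegral.integral_add (continuous_const.intervalIntegrable _ _) (i2.const_mul _),
    intervalIntegral.integral_const, intervalIntegral.integral_const_mul, hP]
  simp only [sub_zero, smul_eq_mul]
  ring

/-- the bound for the boundary values, with a loss if `Psi` is small somewhere -/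
lemma loss_bound (hf : Adm f) (hne : ∃ z ∈ ball (0:ℂ) 1, f z ≠ 0) {b κ : ℝ} (hb : 0 ≤ b)
    (hκ : κ ≤ 1) {r₀ : ℝ} (hr₀ : r₀ ∈ Ioo (0:ℝ) 1)
    (hP : ∀ r ∈ Ioo r₀ 1, Psi f r * Real.exp (-b) ≤ κ) (hκ0 : 0 ≤ κ) :
    CMint f ≤ ENNReal.ofReal (2 * π * (Real.exp (dd f * b) * (1 - Ef f r₀ * (1 - κ)))) := by
  have hpi := Real.pi_pos
  apply fatou_bv f hf.1 (bv f) (bv_ae hf) _ r₀ hr₀.2
  intro r hr hr0
  have hrI : r ∈ Ioo (0:ℝ) 1 := ⟨hr0, hr.2⟩
  have hE := Ef_pos f hf.1 hf.2.1 hne r hr0 hr.2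
  have hE0 := Ef_pos f hf.1 hf.2.1 hne r₀ hr₀.1 hr₀.2
  have hEd := Ef_le_dd hf hrI
  have hE1 : Ef f r ≤ 1 := hEd.trans (dd_le_one hf)
  have hmono : Ef f r₀ ≤ Ef f r := J1908.Ef_mono f hf.1 hr₀ hrI hr.1.le
  have h1 : 1 + Ef f r * (Psi f r * Real.exp (-b) - 1) ≤ 1 - Ef f r₀ * (1 - κ) := by
    have h2 := hP r hr
    have h3 : Ef f r * (Psi f r * Real.exp (-b) - 1) ≤ Ef f r * (κ - 1) :=
      mul_le_mul_of_nonneg_left (by linarith) hE.le
    nlinarith
  have h4 : 0 ≤ 1 - Ef f r₀ * (1 - κ) := by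
    have : Ef f r₀ ≤ 1 := hmono.trans hE1
    nlinarith
  refine (circle_bound hf.1 hrI hE hE1 b).trans ?_
  have h5 : Real.exp (Ef f r * b) ≤ Real.exp (dd f * b) :=
    Real.exp_le_exp.mpr (mul_le_mul_of_nonneg_right hEd hb)
  have h6 : Real.exp (Ef f r * b) * (1 + Ef f r * (Psi f r * Real.exp (-b) - 1)) ≤
      Real.exp (dd f * b) * (1 - Ef f r₀ * (1 - κ)) :=
    (mul_le_mul_of_nonneg_left h1 (Real.exp_pos _).le).trans
      (mul_le_mul_of_nonneg_right h5 h4)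
  exact mul_le_mul_of_nonneg_left h6 (by positivity)

/-! ### the extremal functions -/

lemma integral_ball_pow (n : ℕ) : ∫ z in ball (0:ℂ) 1, ‖z‖ ^ (2 * n) = π / (n + 1) := by
  have h1 : (indicator (ball (0:ℂ) 1) fun z => ‖z‖ ^ (2 * n)) =
      fun z => (indicator (Iio (1:ℝ)) fun y : ℝ => y ^ (2 * n)) ‖z‖ := by
    funext z
    by_cases hz : ‖z‖ < 1
    · rw [indicator_of_mem (by simpa using hz), indicator_of_mem (by simpa using hz)]
    · rw [indicator_of_notMem (by simpa using hz), indicator_of_notMem (by simpa using hz)]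
  rw [← integral_indicator measurableSet_ball, h1, integral_fun_norm_addHaar]
  have h2 : (fun y : ℝ => y ^ (Module.finrank ℝ ℂ - 1) •
      (indicator (Iio (1:ℝ)) fun y : ℝ => y ^ (2 * n)) y) =
      indicator (Iio (1:ℝ)) fun y : ℝ => y ^ (2 * n + 1) := by
    funext y
    rw [Complex.finrank_real_complex]
    by_cases hy : y < 1
    · rw [indicator_of_mem (by simpa using hy), indicator_of_mem (by simpa using hy)]
      simp only [smul_eq_mul]; ring
    · rw [indicator_of_notMem (by simpa using hy), indicator_of_notMem (by simpa using hy)]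
      simp
  rw [h2, setIntegral_indicator measurableSet_Iio, Ioi_inter_Iio,
    ← integral_Ioc_eq_integral_Ioo, ← intervalIntegral.integral_of_le zero_le_one, integral_pow]
  have h3 : volume.real (ball (0:ℂ) 1) = π := by
    unfold Measure.real
    rw [Complex.volume_ball]
    simp
  rw [h3, Complex.finrank_real_complex]
  simp only [smul_eq_mul, nsmul_eq_mul]
  push_cast
  field_simp
  ring

lemma deriv_pow_fun {c : ℂ} {m : ℕ} (h : ∀ z ∈ ball (0:ℂ) 1, f z = c * z ^ m) {z : ℂ}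
    (hz : z ∈ ball (0:ℂ) 1) : deriv f z = c * (m * z ^ (m - 1)) := by
  have h1 : f =ᶠ[𝓝 z] fun z => c * z ^ m := by
    filter_upwards [isOpen_ball.mem_nhds hz] with w hw
    exact h w hw
  rw [h1.deriv_eq]
  exact ((hasDerivAt_pow m z).const_mul c).deriv

lemma dir_pow {c : ℂ} {m : ℕ} (hm : 1 ≤ m) (h : ∀ z ∈ ball (0:ℂ) 1, f z = c * z ^ m) :
    ∫⁻ z in ball (0:ℂ) 1, ENNReal.ofReal (‖deriv f z‖ ^ 2) =
      ENNReal.ofReal (π * (m * ‖c‖ ^ 2)) := by
  have h1 : ∀ z ∈ ball (0:ℂ) 1, ENNReal.ofReal (‖deriv f z‖ ^ 2) =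
      ENNReal.ofReal ((‖c‖ ^ 2 * m ^ 2) * ‖z‖ ^ (2 * (m - 1))) := by
    intro z hz
    rw [deriv_pow_fun h hz, norm_mul, norm_mul, norm_pow, Complex.norm_natCast]
    congr 1
    rw [mul_pow, mul_pow, ← pow_mul, mul_comm (m - 1) 2]
    ring
  rw [setLIntegral_congr_fun measurableSet_ball h1]
  have hc : Continuous fun z : ℂ => (‖c‖ ^ 2 * m ^ 2) * ‖z‖ ^ (2 * (m - 1)) := by fun_prop
  have hint : IntegrableOn (fun z : ℂ => (‖c‖ ^ 2 * m ^ 2) * ‖z‖ ^ (2 * (m - 1))) (ball 0 1) :=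
    (hc.continuousOn.integrableOn_compact (isCompact_closedBall (0:ℂ) 1)).mono_set
      ball_subset_closedBall
  rw [← ofReal_integral_eq_lintegral_ofReal hint (Eventually.of_forall fun z => by positivity),
    integral_const_mul, integral_ball_pow]
  congr 1
  have h2 : ((m - 1 : ℕ) : ℝ) + 1 = m := by
    rw [Nat.cast_sub hm]; push_cast; ring
  rw [h2]
  have h3 : (m : ℝ) ≠ 0 := by
    have : m ≠ 0 := by omega
    exact_mod_cast this
  field_simp

lemma dd_pow {c : ℂ} {m : ℕ} (hm : 1 ≤ m) (h : ∀ z ∈ ball (0:ℂ) 1, f z = c * z ^ m) :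
    dd f = m * ‖c‖ ^ 2 := by
  unfold dd
  rw [dir_pow hm h, ENNReal.toReal_ofReal (by positivity)]
  field_simp

lemma adm_pow {c : ℂ} {m : ℕ} (hm : 1 ≤ m) (hc : m * ‖c‖ ^ 2 ≤ 1)
    (h : ∀ z ∈ ball (0:ℂ) 1, f z = c * z ^ m) : Adm f := by
  refine ⟨?_, ?_, ?_⟩
  · exact ((differentiable_id.pow m).const_mul c).differentiableOn.congr h
  · rw [h 0 (by simp), zero_pow (by omega), mul_zero]
  · rw [dir_pow hm h]
    apply ENNReal.ofReal_le_ofReal
    have := Real.pi_pos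
    nlinarith

lemma CMint_pow {c : ℂ} {m : ℕ} (h : ∀ z ∈ ball (0:ℂ) 1, f z = c * z ^ m) :
    CMint f = ENNReal.ofReal (2 * π * Real.exp (‖c‖ ^ 2)) := by
  apply exp_const_integral c
  refine Eventually.of_forall (fun θ => ?_)
  have h1 : Tendsto (fun r : ℝ => c * circleMap 0 r θ ^ m) (𝓝[<] 1)
      (𝓝 (c * circleMap 0 1 θ ^ m)) := by
    have : Continuous (fun r : ℝ => c * circleMap 0 r θ ^ m) := by
      unfold circleMap
      fun_prop
    exact (this.tendsto 1).mono_left nhdsWithin_le_nhds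
  have h2 : Tendsto (fun r : ℝ => f (circleMap 0 r θ)) (𝓝[<] 1)
      (𝓝 (c * circleMap 0 1 θ ^ m)) := by
    apply h1.congr'
    have : Ioo (0:ℝ) 1 ∈ 𝓝[<] (1:ℝ) := Ioo_mem_nhdsLT zero_lt_one
    filter_upwards [this] with r hr
    exact (h _ (circleMap_mem hr.1 hr.2)).symm
  unfold bv
  rw [h2.limUnder_eq]
  simp [circleMap, Complex.norm_exp]

/-! ### the main theorem -/

lemma Psi_nonneg (r : ℝ) : 0 ≤ Psi f r := by
  have hpi := Real.pi_pos
  unfold Psi
  apply mul_nonneg (by positivity)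
  apply intervalIntegral.integral_nonneg (by positivity)
  intro θ _
  positivity

/-- the order of vanishing -/
lemma exists_order (hf : DifferentiableOn ℂ f (ball 0 1)) (h0 : f 0 = 0)
    (hne : ∃ z ∈ ball (0:ℂ) 1, f z ≠ 0) :
    ∃ (m : ℕ) (g : ℂ → ℂ), 1 ≤ m ∧ AnalyticAt ℂ g 0 ∧ g 0 ≠ 0 ∧
      ∀ᶠ z in 𝓝 (0 : ℂ), f z = z ^ m * g z := by
  have hfa : AnalyticOnNhd ℂ f (ball 0 1) := hf.analyticOnNhd isOpen_ball
  have hf0 : AnalyticAt ℂ f 0 := hfa 0 (by simp)
  have hnz : ¬ ∀ᶠ z in 𝓝 (0:ℂ), f z = 0 := by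
    intro hz
    obtain ⟨z, hz1, hz2⟩ := hne
    have := hfa.eqOn_zero_of_preconnected_of_eventuallyEq_zero
      (convex_ball (0:ℂ) 1).isPreconnected (z₀ := 0) (by simp) hz
    exact hz2 (this hz1)
  obtain ⟨m, g, hg, hg0, hfg⟩ := hf0.exists_eventuallyEq_pow_smul_nonzero_iff.mpr hnz
  simp only [sub_zero, smul_eq_mul] at hfg
  have hm : 1 ≤ m := by
    by_contra hm
    have hm0 : m = 0 := by omega
    have := hfg.self_of_nhds
    rw [h0, hm0, pow_zero, one_mul] at this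
    exact hg0 this.symm
  exact ⟨m, g, hm, hg, hg0, hfg⟩

lemma order_le {m m' : ℕ} {g g' : ℂ → ℂ} (hg' : AnalyticAt ℂ g' 0) (hg0' : g' 0 ≠ 0)
    (hfg' : ∀ᶠ z in 𝓝 (0 : ℂ), f z = z ^ m' * g' z) (hg : AnalyticAt ℂ g 0)
    (hfg : ∀ᶠ z in 𝓝 (0 : ℂ), f z = z ^ m * g z) : m ≤ m' := by
  by_contra hlt
  push Not at hlt
  -- `g' = z ^ (m - m') g` near `0`, off `0`
  have h1 : ∀ᶠ z in 𝓝[≠] (0 : ℂ), g' z = z ^ (m - m') * g z := by
    filter_upwards [hfg'.filter_mono nhdsWithin_le_nhds, hfg.filter_mono nhdsWithin_le_nhds,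
      self_mem_nhdsWithin] with z h1 h2 h3
    have hz : z ≠ 0 := h3
    have h4 : z ^ m' * g' z = z ^ m' * (z ^ (m - m') * g z) := by
      rw [← h1, h2, ← mul_assoc, ← pow_add]
      congr 2
      omega
    exact mul_left_cancel₀ (pow_ne_zero _ hz) h4
  have h2 : Tendsto g' (𝓝[≠] (0 : ℂ)) (𝓝 (g' 0)) :=
    hg'.continuousAt.tendsto.mono_left nhdsWithin_le_nhds
  have h3 : Tendsto (fun z => z ^ (m - m') * g z) (𝓝[≠] (0 : ℂ)) (𝓝 ((0:ℂ) ^ (m - m') * g 0)) :=
    (((continuous_pow (m - m')).continuousAt.mul hg.continuousAt).tendsto).mono_left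
      nhdsWithin_le_nhds
  rw [zero_pow (by omega), zero_mul] at h3
  exact hg0' (tendsto_nhds_unique (h2.congr' h1) h3)

theorem sharp {m : ℕ} (hm : 1 ≤ m) {g : ℂ → ℂ} (hg : AnalyticAt ℂ g 0)
    (hfg : ∀ᶠ z in 𝓝 (0 : ℂ), f z = z ^ m * g z) (hf : Adm f) :
    CMint f ≤ ENNReal.ofReal (2 * π * Real.exp (dd f / m)) ∧
    (CMint f = ENNReal.ofReal (2 * π * Real.exp (dd f / m)) ↔
      ∃ c : ℂ, m * ‖c‖ ^ 2 ≤ 1 ∧ ∀ z ∈ ball (0:ℂ) 1, f z = c * z ^ m) := by
  have hpi := Real.pi_pos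
  have hmr : (0:ℝ) < m := by exact_mod_cast hm
  have hback : (∃ c : ℂ, m * ‖c‖ ^ 2 ≤ 1 ∧ ∀ z ∈ ball (0:ℂ) 1, f z = c * z ^ m) →
      CMint f = ENNReal.ofReal (2 * π * Real.exp (dd f / m)) := by
    rintro ⟨c, _, hc⟩
    rw [CMint_pow hc, dd_pow hm hc]
    congr 3
    field_simp
  by_cases hne : ∃ z ∈ ball (0:ℂ) 1, f z ≠ 0
  swap
  · push Not at hne
    have h1 : ∃ c : ℂ, m * ‖c‖ ^ 2 ≤ 1 ∧ ∀ z ∈ ball (0:ℂ) 1, f z = c * z ^ m :=
      ⟨0, by simp, fun z hz => by rw [hne z hz]; ring⟩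
    have h2 := hback h1
    exact ⟨h2.le, ⟨fun _ => h1, fun _ => h2⟩⟩
  obtain ⟨m', g', hm', hg', hg0', hfg'⟩ := exists_order hf.1 hf.2.1 hne
  have hmm : m ≤ m' := order_le hg' hg0' hfg' hg hfg
  have hmr' : (0:ℝ) < m' := by exact_mod_cast hm'
  have hL := Psi_tendsto_order f hm' hg' hg0' hfg'
  have hPle : ∀ r ∈ Ioo (0:ℝ) 1, Psi f r ≤ Real.exp (1 / m') := fun r hr =>
    Psi_le_limit hf.1 hf.2.1 hne hL hr
  have hEpos : ∀ r ∈ Ioo (0:ℝ) 1, 0 < Ef f r := fun r hr =>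
    Ef_pos f hf.1 hf.2.1 hne r hr.1 hr.2
  have hexp : ∀ r, Psi f r * Real.exp (-(1 / m')) = Psi f r / Real.exp (1 / m') := by
    intro r; rw [Real.exp_neg]; rfl
  have hdd : dd f * (1 / m') = dd f / m' := by ring
  have hmono : Real.exp (dd f / m') ≤ Real.exp (dd f / m) := by
    apply Real.exp_le_exp.mpr
    have : (m : ℝ) ≤ m' := by exact_mod_cast hmm
    exact div_le_div_of_nonneg_left dd_nonneg hmr this
  have hle' : CMint f ≤ ENNReal.ofReal (2 * π * Real.exp (dd f / m')) := by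
    have h1 := loss_bound hf hne (b := 1 / m') (κ := 1) (by positivity) le_rfl
      (r₀ := 1 / 2) (by norm_num) (fun r hr => by
        rw [hexp, div_le_one (Real.exp_pos _)]
        exact hPle r ⟨by linarith [hr.1], hr.2⟩) zero_le_one
    rw [sub_self, mul_zero, sub_zero, mul_one, hdd] at h1
    exact h1
  refine ⟨hle'.trans (ENNReal.ofReal_le_ofReal (by nlinarith)), fun heq => ?_, hback⟩
  -- the case of equality
  have hge : ∀ r ∈ Ioo (0:ℝ) 1, Real.exp (1 / m') ≤ Psi f r := by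
    intro r hr
    have hκ1 : Psi f r / Real.exp (1 / m') ≤ 1 := by
      rw [div_le_one (Real.exp_pos _)]; exact hPle r hr
    have hκ0 : 0 ≤ Psi f r / Real.exp (1 / m') := div_nonneg (Psi_nonneg r) (Real.exp_pos _).le
    have h1 := loss_bound hf hne (b := 1 / m') (κ := Psi f r / Real.exp (1 / m'))
      (by positivity) hκ1 hr (fun s hs => by
        rw [hexp]
        exact div_le_div_of_nonneg_right
          (Psi_antitone hf.1 hf.2.1 hne hr ⟨hr.1.trans hs.1, hs.2⟩ hs.1.le) (Real.exp_pos _).le) hκ0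
    rw [heq, hdd] at h1
    have hE := hEpos r hr
    have hE1 : Ef f r ≤ 1 := (Ef_le_dd hf hr).trans (dd_le_one hf)
    have h2 : 0 ≤ 1 - Ef f r * (1 - Psi f r / Real.exp (1 / m')) := by nlinarith
    rw [ENNReal.ofReal_le_ofReal_iff (by positivity)] at h1
    have h3 : Real.exp (dd f / m) ≤
        Real.exp (dd f / m') * (1 - Ef f r * (1 - Psi f r / Real.exp (1 / m'))) :=
      le_of_mul_le_mul_left h1 (by positivity)
    have h4 : Real.exp (dd f / m') * 1 ≤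
        Real.exp (dd f / m') * (1 - Ef f r * (1 - Psi f r / Real.exp (1 / m'))) := by
      rw [mul_one]; exact hmono.trans h3
    have h5 := le_of_mul_le_mul_left h4 (Real.exp_pos _)
    have h6 : 1 ≤ Psi f r / Real.exp (1 / m') := by
      by_contra hcon
      push Not at hcon
      nlinarith
    rwa [le_div_iff₀ (Real.exp_pos _), one_mul] at h6
  have hconst : ∀ r ∈ Ioo (0:ℝ) 1, Psi f r = Real.exp (1 / m') := fun r hr =>
    le_antisymm (hPle r hr) (hge r hr)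
  obtain ⟨c, hc⟩ := rigidity_order f hf.1 hm' hg' hg0' hfg' hEpos (fun r hr => by
    apply Iint_eq_zero hf.1 hr.1 hr.2 (hEpos r hr)
    have h1 := Psi_deriv hf.1 hr.1 hr.2 (hEpos r hr)
    have h2 : HasDerivAt (Psi f) 0 r := by
      have : (Psi f) =ᶠ[𝓝 r] (fun _ => Real.exp (1 / m')) := by
        filter_upwards [isOpen_Ioo.mem_nhds hr] with s hs
        exact hconst s hs
      exact (hasDerivAt_const r (Real.exp (1 / m'))).congr_of_eventuallyEq this
    have h3 := h1.unique h2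
    have h4 : (1 / (2 * π)) * (2 / (r * Ef f r ^ 2)) ≠ 0 := by
      have := hEpos r hr
      have := hr.1
      positivity
    exact (mul_eq_zero.mp h3).resolve_left h4)
  -- the order is `m`
  have hd0 : 0 < dd f := (hEpos (1 / 2) (by norm_num)).trans_le (Ef_le_dd hf (by norm_num))
  have hm2 : m' = m := by
    rw [heq, ENNReal.ofReal_le_ofReal_iff (by positivity)] at hle'
    have h1 : Real.exp (dd f / m) ≤ Real.exp (dd f / m') :=
      le_of_mul_le_mul_left hle' (by positivity)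
    rw [Real.exp_le_exp, div_le_div_iff_of_pos_left hd0 hmr hmr'] at h1
    have h2 : m' ≤ m := by exact_mod_cast h1
    omega
  subst hm2
  exact ⟨c, by rw [← dd_pow hm hc]; exact dd_le_one hf, hc⟩

end Pool.Agent.Y841.CM
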