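import Pool.Agent.Helper714.CM.Main

/-! Sharp Chang–Marshall inequality for functions with a zero of order `m`: the limit of the
monotone quantity and the equality case. Adaptation of `Helper714/CM/J1909`, `J1933`. -/

open MeasureTheory Complex Filter Topology Set Metric
open scoped ComplexConjugate Real

noncomputable section

namespace Pool.Agent.Y841.CM

open _root_.CM _root_.CM.J1909 _root_.CM.J1933

/-- the limit of `Psi` at a zero of order `m` -/
theorem Psi_tendsto_order (f : ℂ → ℂ) {m : ℕ} (hm : 1 ≤ m) {g : ℂ → ℂ} (hg : AnalyticAt ℂ g 0)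
    (hg0 : g 0 ≠ 0) (hfg : ∀ᶠ z in 𝓝 (0 : ℂ), f z = z ^ m * g z) :
    Tendsto (Psi f) (𝓝[>] 0) (𝓝 (Real.exp (1 / m))) := by
  obtain ⟨δ, hδ, hball⟩ := Metric.eventually_nhds_iff_ball.mp
    (hg.eventually_analyticAt.and hfg)
  have hder : ∀ z ∈ ball (0:ℂ) δ,
      z * deriv f z = z ^ m * (m * g z + z * deriv g z) := by
    intro z hz
    have h1 : f =ᶠ[𝓝 z] fun w => w ^ m * g w := by
      filter_upwards [isOpen_ball.mem_nhds hz] with w hw
      exact (hball w hw).2
    have h2 : HasDerivAt (fun w => w ^ m * g w) (m * z ^ (m - 1) * g z + z ^ m * deriv g z) z :=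
      (hasDerivAt_pow m z).mul (hball z hz).1.differentiableAt.hasDerivAt
    rw [h1.deriv_eq, h2.deriv]
    have h3 : z ^ m = z * z ^ (m - 1) := by
      rw [← pow_succ', Nat.sub_add_cancel hm]
    rw [h3]; ring
  set φ : ℂ → ℝ := fun z => (conj (g z) * (m * g z + z * deriv g z)).re with hφ
  have hφc : ∀ z ∈ ball (0:ℂ) δ, ContinuousAt φ z := by
    intro z hz
    have h1 : ContinuousAt g z := (hball z hz).1.continuousAt
    have h2 : ContinuousAt (deriv g) z := (hball z hz).1.deriv.continuousAt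
    apply Complex.continuous_re.continuousAt.comp
    apply ContinuousAt.mul
    · exact Complex.continuous_conj.continuousAt.comp h1
    · exact (continuousAt_const.mul h1).add (continuousAt_id.mul h2)
  have hgc : ∀ z ∈ ball (0:ℂ) δ, ContinuousAt g z := fun z hz => (hball z hz).1.continuousAt
  have h0b : (0:ℂ) ∈ ball (0:ℂ) δ := mem_ball_self hδ
  have hφ0 : φ 0 = m * ‖g 0‖ ^ 2 := by
    simp only [hφ, zero_mul, add_zero]
    have : conj (g 0) * (m * g 0) = ((m * ‖g 0‖ ^ 2 : ℝ) : ℂ) := by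
      push_cast
      rw [← Complex.conj_mul']
      ring
    rw [this, Complex.ofReal_re]
  set e : ℝ → ℝ := fun r => (1 / (2 * π)) * ∫ θ in (0:ℝ)..(2 * π), φ (circleMap 0 r θ) with he
  have hrδ : ∀ᶠ r in 𝓝[>] (0:ℝ), r ∈ Ioo (0:ℝ) δ := Ioo_mem_nhdsGT hδ
  have hmemb : ∀ r ∈ Ioo (0:ℝ) δ, ∀ θ, circleMap 0 r θ ∈ ball (0:ℂ) δ := by
    intro r hr θ
    rw [mem_ball_zero_iff, norm_circleMap_zero, abs_of_pos hr.1]
    exact hr.2
  have hetend : Tendsto e (𝓝[>] 0) (𝓝 (φ 0)) := by
    apply avg_tendsto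
    · filter_upwards [hrδ] with r hr
      rw [continuous_iff_continuousAt]
      intro θ
      exact (hφc _ (hmemb r hr θ)).comp (continuous_circleMap 0 r).continuousAt
    · intro ε hε
      apply ev_circle (p := fun z => |φ z - φ 0| ≤ ε)
      have := Metric.tendsto_nhds.mp (hφc 0 h0b) ε hε
      filter_upwards [this] with z hz
      rw [Real.dist_eq] at hz
      exact hz.le
  have hEf : ∀ r ∈ Ioo (0:ℝ) δ, Ef f r = (r ^ 2) ^ m * e r := by
    intro r hr
    have hint : ∫ θ in (0:ℝ)..(2 * π), (Wf f r θ).re =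
        (r ^ 2) ^ m * ∫ θ in (0:ℝ)..(2 * π), φ (circleMap 0 r θ) := by
      rw [← intervalIntegral.integral_const_mul]
      apply intervalIntegral.integral_congr
      intro θ _
      simp only
      set z := circleMap 0 r θ with hz
      have hzb := hmemb r hr θ
      rw [← hz] at hzb
      have hnz' : ‖z‖ = r := by rw [hz, norm_circleMap_zero, abs_of_pos hr.1]
      unfold Wf
      rw [← hz, hder z hzb, (hball z hzb).2]
      have : conj (z ^ m * g z) * (z ^ m * (m * g z + z * deriv g z)) =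
          (((r ^ 2) ^ m : ℝ) : ℂ) * (conj (g z) * (m * g z + z * deriv g z)) := by
        rw [map_mul, map_pow]
        have h3 : conj z * z = ((r ^ 2 : ℝ) : ℂ) := by
          rw [Complex.conj_mul', hnz']; push_cast; rfl
        calc conj z ^ m * conj (g z) * (z ^ m * (m * g z + z * deriv g z))
            = (conj z * z) ^ m * (conj (g z) * (m * g z + z * deriv g z)) := by ring
          _ = _ := by rw [h3]; push_cast; rfl
      rw [this, Complex.re_ofReal_mul]
    unfold Ef
    rw [hint, he]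
    simp only
    ring
  have hg0n : 0 < ‖g 0‖ := norm_pos_iff.mpr hg0
  have hm0 : (0:ℝ) < m := by exact_mod_cast hm
  have hφ0pos : 0 < φ 0 := by rw [hφ0]; positivity
  have hPsi : ∀ᶠ r in 𝓝[>] (0:ℝ), (1 / (2 * π)) * ∫ θ in (0:ℝ)..(2 * π),
      Real.exp (‖g (circleMap 0 r θ)‖ ^ 2 / e r) = Psi f r := by
    filter_upwards [hrδ] with r hr
    unfold Psi
    congr 1
    apply intervalIntegral.integral_congr
    intro θ _
    simp only
    congr 1
    rw [hEf r hr, (hball _ (hmemb r hr θ)).2, norm_mul, norm_pow, norm_circleMap_zero,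
      abs_of_pos hr.1, mul_pow]
    have hr0 : 0 < r := hr.1
    have : (r ^ m) ^ 2 = (r ^ 2) ^ m := by rw [← pow_mul, ← pow_mul, mul_comm]
    rw [this]
    rw [mul_div_mul_left _ _ (by positivity)]
  refine Tendsto.congr' hPsi ?_
  have hlim : Real.exp (1 / m) = Real.exp (‖g 0‖ ^ 2 / φ 0) := by
    congr 1
    rw [hφ0]
    field_simp
  rw [hlim]
  apply avg_tendsto (fun r θ => Real.exp (‖g (circleMap 0 r θ)‖ ^ 2 / e r))
  · filter_upwards [hrδ] with r hr
    rw [continuous_iff_continuousAt]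
    intro θ
    apply Real.continuous_exp.continuousAt.comp
    apply ContinuousAt.div_const
    apply ContinuousAt.pow
    apply ContinuousAt.norm
    exact (hgc _ (hmemb r hr θ)).comp (continuous_circleMap 0 r).continuousAt
  · intro ε hε
    have hcont : ContinuousAt (fun q : ℂ × ℝ => Real.exp (‖g q.1‖ ^ 2 / q.2)) (0, φ 0) := by
      apply Real.continuous_exp.continuousAt.comp
      apply ContinuousAt.div
      · apply ContinuousAt.pow
        apply ContinuousAt.norm
        exact ContinuousAt.comp (x := ((0:ℂ), φ 0)) (f := Prod.fst) (g := g) (hgc 0 h0b)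
          continuousAt_fst
      · exact continuousAt_snd
      · exact hφ0pos.ne'
    have h1 := Metric.tendsto_nhds.mp hcont ε hε
    rw [nhds_prod_eq, Filter.eventually_prod_iff] at h1
    obtain ⟨pa, hpa, pb, hpb, hab⟩ := h1
    filter_upwards [ev_circle hpa, hetend.eventually hpb] with r h2 h3 θ
    have h4 := hab (h2 θ) h3
    rw [Real.dist_eq] at h4
    exact h4.le

/-- the coefficient identity in the case of equality, zero of order `m` -/
theorem coeff_identity_order (f : ℂ → ℂ) (hf : DifferentiableOn ℂ f (ball 0 1)) {m : ℕ}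
    (hm : 1 ≤ m) {g : ℂ → ℂ} (hg : AnalyticAt ℂ g 0) (hg0' : g 0 ≠ 0)
    (hfg : ∀ᶠ z in 𝓝 (0 : ℂ), f z = z ^ m * g z)
    (hE : ∀ r ∈ Ioo (0:ℝ) 1, 0 < Ef f r)
    (hC : ∀ r ∈ Ioo (0:ℝ) 1, ∃ C : ℝ, ∀ θ : ℝ,
      ‖circleMap 0 r θ * deriv f (circleMap 0 r θ)‖ =
        C * (‖f (circleMap 0 r θ)‖ * Real.exp (‖f (circleMap 0 r θ)‖ ^ 2 / (2 * Ef f r))))
    (n : ℕ) (hn : 1 ≤ n) :
    ∃ l : ℂ, ∀ k : ℕ,
      tc f (k + n) * conj (tc f k) = l * (k : ℂ) * (tc f k * conj (tc f k)) := by
  obtain ⟨δ, hδ, hball⟩ := Metric.eventually_nhds_iff_ball.mp (hg.eventually_analyticAt.and hfg)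
  have hmc : (m : ℂ) ≠ 0 := by
    have : m ≠ 0 := by omega
    exact_mod_cast this
  have hmr : (0 : ℝ) < m := by exact_mod_cast hm
  have hder : ∀ z ∈ ball (0:ℂ) δ,
      z * deriv f z = z ^ m * (m * g z + z * deriv g z) := by
    intro z hz
    have h1 : f =ᶠ[𝓝 z] fun w => w ^ m * g w := by
      filter_upwards [isOpen_ball.mem_nhds hz] with w hw
      exact (hball w hw).2
    have h2 : HasDerivAt (fun w => w ^ m * g w) (m * z ^ (m - 1) * g z + z ^ m * deriv g z) z :=
      (hasDerivAt_pow m z).mul (hball z hz).1.differentiableAt.hasDerivAt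
    rw [h1.deriv_eq, h2.deriv]
    have h3 : z ^ m = z * z ^ (m - 1) := by
      rw [← pow_succ', Nat.sub_add_cancel hm]
    rw [h3]; ring
  set q : ℂ → ℂ := fun z => (m * g z + z * deriv g z) / (m * g z) with hq
  have hgc : ContinuousAt g 0 := hg.continuousAt
  have hdc : ContinuousAt (deriv g) 0 := hg.deriv.continuousAt
  have hqc : ContinuousAt q 0 :=
    ((continuousAt_const.mul hgc).add (continuousAt_id.mul hdc)).div
      (continuousAt_const.mul hgc) (mul_ne_zero hmc hg0')
  have hq0 : q 0 = 1 := by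
    simp only [hq]
    rw [zero_mul, add_zero, div_self (mul_ne_zero hmc hg0')]
  obtain ⟨r1, hr1p, hr1le, hr1δ, hr1⟩ : ∃ r1 : ℝ, 0 < r1 ∧ r1 ≤ 1 ∧ r1 ≤ δ ∧
      ∀ z ∈ ball (0 : ℂ) r1, g z ≠ 0 ∧ ‖q z - 1‖ < 1 := by
    have e1 : ∀ᶠ z in 𝓝 (0 : ℂ), g z ≠ 0 := hgc.eventually_ne hg0'
    have e2 : ∀ᶠ z in 𝓝 (0 : ℂ), ‖q z - 1‖ < 1 := by
      have h3 : ContinuousAt (fun z => ‖q z - 1‖) 0 := (hqc.sub continuousAt_const).norm
      have h4 : ‖q 0 - 1‖ < 1 := by rw [hq0]; simp
      exact h3.eventually (gt_mem_nhds h4)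
    obtain ⟨ε, hε, hball⟩ := Metric.eventually_nhds_iff_ball.mp (e1.and e2)
    refine ⟨min (min ε δ) 1, lt_min (lt_min hε hδ) one_pos, min_le_right _ _,
      (min_le_left _ _).trans (min_le_right _ _), fun z hz => hball z ?_⟩
    exact ball_subset_ball ((min_le_left _ _).trans (min_le_left _ _)) hz
  have hsub : ball (0 : ℂ) r1 ⊆ ball 0 1 := ball_subset_ball hr1le
  have hsubδ : ball (0 : ℂ) r1 ⊆ ball 0 δ := ball_subset_ball hr1δ
  set L : ℂ → ℂ := fun z => Complex.log (q z) with hL
  have hslit : ∀ z ∈ ball (0 : ℂ) r1, q z ∈ slitPlane := by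
    intro z hz
    have := Complex.mem_slitPlane_of_norm_lt_one (hr1 z hz).2
    rwa [add_sub_cancel] at this
  have hLd : DifferentiableOn ℂ L (ball 0 r1) := by
    have hgd : DifferentiableOn ℂ g (ball 0 r1) := fun z hz =>
      (hball z (hsubδ hz)).1.differentiableAt.differentiableWithinAt
    have hgd' : DifferentiableOn ℂ (deriv g) (ball 0 r1) := fun z hz =>
      (hball z (hsubδ hz)).1.deriv.differentiableAt.differentiableWithinAt
    have hqd : DifferentiableOn ℂ q (ball 0 r1) :=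
      ((hgd.const_mul _).add (differentiableOn_id.mul hgd')).div (hgd.const_mul _)
        (fun z hz => mul_ne_zero hmc (hr1 z hz).1)
    exact hqd.clog hslit
  have hfd : DifferentiableOn ℂ f (ball 0 r1) := hf.mono hsub
  have hzn : DifferentiableOn ℂ (fun z : ℂ => z ^ n) (ball 0 r1) :=
    (differentiable_pow n).differentiableOn
  have hLzn : DifferentiableOn ℂ (fun z => L z * z ^ n) (ball 0 r1) := hLd.mul hzn
  have hznf : DifferentiableOn ℂ (fun z => z ^ n * f z) (ball 0 r1) := diff_pow_mul hfd n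
  have h1d : DifferentiableOn ℂ (fun _ : ℂ => (1 : ℂ)) (ball 0 r1) := differentiableOn_const _
  have hn0 : n ≠ 0 := by omega
  refine ⟨tc L n, ?_⟩
  -- main identity for each radius
  have hmain : ∀ r : ℝ, 0 < r → r < r1 →
      II f (fun z => z ^ n * f z) r = (Ef f r : ℂ) * (tc L n * (r : ℂ) ^ (2 * n)) := by
    intro r hr hrr
    have hrI : r ∈ Ioo (0:ℝ) 1 := ⟨hr, by linarith⟩
    obtain ⟨C0, hCr⟩ := hC r hrI
    set C : ℝ := C0 / m with hCdef
    have hEr := hE r hrI
    set Er := Ef f r with hEr'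
    -- pointwise real part of L
    have hre : ∀ θ : ℝ, (L (circleMap 0 r θ)).re =
        Real.log C + ‖f (circleMap 0 r θ)‖ ^ 2 / (2 * Er) := by
      intro θ
      set z := circleMap 0 r θ with hz
      have hzn : ‖z‖ = r := norm_circ hr θ
      have hz0 : z ≠ 0 := by rw [← norm_pos_iff, hzn]; exact hr
      have hzb : z ∈ ball (0 : ℂ) r1 := by rw [mem_ball_zero_iff, hzn]; exact hrr
      have hfz' : f z = z ^ m * g z := (hball z (hsubδ hzb)).2
      have hfz : f z ≠ 0 := by
        rw [hfz']; exact mul_ne_zero (pow_ne_zero _ hz0) (hr1 z hzb).1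
      have hqz : m * q z = z * deriv f z / f z := by
        simp only [hq]
        rw [hder z (hsubδ hzb), hfz', mul_div_mul_left _ _ (pow_ne_zero _ hz0)]
        have := (hr1 z hzb).1
        field_simp
      have hqn : ‖q z‖ = C * Real.exp (‖f z‖ ^ 2 / (2 * Er)) := by
        have h5 : (m : ℝ) * ‖q z‖ = ‖z * deriv f z‖ / ‖f z‖ := by
          rw [← norm_div (z * deriv f z) (f z), ← hqz, norm_mul, Complex.norm_natCast]
        rw [hz, hCr θ, ← hz] at h5
        have h6 : ‖f z‖ ≠ 0 := norm_ne_zero_iff.mpr hfz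
        have h7 : C0 * (‖f z‖ * Real.exp (‖f z‖ ^ 2 / (2 * Er))) / ‖f z‖ =
            C0 * Real.exp (‖f z‖ ^ 2 / (2 * Er)) := by
          field_simp
        rw [h7] at h5
        rw [hCdef, div_mul_eq_mul_div, eq_div_iff hmr.ne', ← h5]
        ring
      have hqz0 : q z ≠ 0 := slitPlane_ne_zero (hslit z hzb)
      have hCpos : 0 < C := by
        have h5 : 0 < C * Real.exp (‖f z‖ ^ 2 / (2 * Er)) := by
          rw [← hqn]; exact norm_pos_iff.mpr hqz0
        exact pos_of_mul_pos_left h5 (Real.exp_pos _).le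
      show (Complex.log (q z)).re = _
      rw [Complex.log_re, hqn, Real.log_mul hCpos.ne' (Real.exp_pos _).ne', Real.log_exp]
    -- pointwise identity
    have hpt : ∀ θ : ℝ,
        L (circleMap 0 r θ) * conj ((circleMap 0 r θ) ^ n) +
          1 * conj (L (circleMap 0 r θ) * (circleMap 0 r θ) ^ n) =
        (2 * Real.log C : ℂ) * (1 * conj ((circleMap 0 r θ) ^ n)) +
          (1 / Er : ℂ) * (f (circleMap 0 r θ) * conj ((circleMap 0 r θ) ^ n * f (circleMap 0 r θ))) := by
      intro θ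
      have h5 := hre θ
      set z := circleMap 0 r θ with hz
      have h6 : L z + conj (L z) = ((2 * (L z).re : ℝ) : ℂ) := by
        rw [Complex.add_conj]
      have h7 : f z * conj (f z) = ((‖f z‖ ^ 2 : ℝ) : ℂ) := by
        rw [Complex.mul_conj, Complex.normSq_eq_norm_sq]
      have hErc : (Er : ℂ) ≠ 0 := by exact_mod_cast hEr.ne'
      rw [map_mul, map_mul]
      have h8 : (1 / Er : ℂ) * (f z * (conj (z ^ n) * conj (f z))) =
          (1 / Er : ℂ) * ((‖f z‖ ^ 2 : ℝ) : ℂ) * conj (z ^ n) := by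
        rw [← h7]; ring
      have h9 : L z * conj (z ^ n) + 1 * (conj (L z) * conj (z ^ n)) =
          ((2 * (L z).re : ℝ) : ℂ) * conj (z ^ n) := by
        rw [← h6]; ring
      rw [h8, h9, h5]
      push_cast
      field_simp
    have i1 := (cont_pair hLd hzn hr hrr).intervalIntegrable (μ := volume) 0 (2 * π)
    have i2 := (cont_pair h1d hLzn hr hrr).intervalIntegrable (μ := volume) 0 (2 * π)
    have i3 := (cont_pair h1d hzn hr hrr).intervalIntegrable (μ := volume) 0 (2 * π)
    have i4 := (cont_pair hfd hznf hr hrr).intervalIntegrable (μ := volume) 0 (2 * π)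
    have hsum : II L (fun z => z ^ n) r + II (fun _ => 1) (fun z => L z * z ^ n) r =
        (2 * Real.log C : ℂ) * II (fun _ => 1) (fun z => z ^ n) r +
          (1 / Er : ℂ) * II f (fun z => z ^ n * f z) r := by
      unfold II
      rw [← smul_add, ← intervalIntegral.integral_add i1 i2, mul_smul_comm, mul_smul_comm,
        ← smul_add, ← intervalIntegral.integral_const_mul, ← intervalIntegral.integral_const_mul,
        ← intervalIntegral.integral_add (i3.const_mul _) (i4.const_mul _)]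
      congr 1
      exact intervalIntegral.integral_congr fun θ _ => hpt θ
    rw [II_L hLd n hr hrr, II_one hLzn (by simp [hn0]) hr hrr,
      II_one hzn (by simp [hn0]) hr hrr, add_zero, mul_zero, zero_add] at hsum
    have hErc : (Er : ℂ) ≠ 0 := by exact_mod_cast hEr.ne'
    rw [hsum]
    field_simp
  -- series identity
  have hser : ∀ r : ℝ, 0 < r → r < r1 →
      HasSum (fun j : ℕ => (tc f (j + n) * conj (tc f j) -
        tc L n * ((j : ℂ) * (tc f j * conj (tc f j)))) * (((r ^ 2 : ℝ)) : ℂ) ^ j) 0 := by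
    intro r hr hrr
    have hrc : (r : ℂ) ≠ 0 := by exact_mod_cast hr.ne'
    have p1 := parseval_circle f (fun z => z ^ n * f z) r1 hfd hznf r hr hrr
    have p2 : HasSum (fun k : ℕ => tc f k * conj (tc (fun z => z ^ n * f z) k) * (r : ℂ) ^ (2 * k))
        ((Ef f r : ℂ) * (tc L n * (r : ℂ) ^ (2 * n))) := by
      rw [← hmain r hr hrr]; exact p1
    rw [← hasSum_nat_add_iff' n] at p2
    have p3 : ∑ i ∈ Finset.range n,
        tc f i * conj (tc (fun z => z ^ n * f z) i) * (r : ℂ) ^ (2 * i) = 0 := by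
      refine Finset.sum_eq_zero fun i hi => ?_
      rw [tc_powmul_lt hr1p hfd n i (Finset.mem_range.mp hi)]; simp
    rw [p3, sub_zero] at p2
    have p4 := (p2.mul_left ((r : ℂ) ^ (2 * n))⁻¹).sub
      ((energy_series hr1p hfd hr hrr).mul_left (tc L n))
    have hpn : (r : ℂ) ^ (2 * n) ≠ 0 := pow_ne_zero _ hrc
    have p5 : ((r : ℂ) ^ (2 * n))⁻¹ * ((Ef f r : ℂ) * (tc L n * (r : ℂ) ^ (2 * n))) -
        tc L n * (Ef f r : ℂ) = 0 := by
      field_simp
      ring
    rw [p5] at p4
    have e : (fun j : ℕ => (tc f (j + n) * conj (tc f j) -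
        tc L n * ((j : ℂ) * (tc f j * conj (tc f j)))) * (((r ^ 2 : ℝ)) : ℂ) ^ j) =
        fun b : ℕ => ((r : ℂ) ^ (2 * n))⁻¹ * (tc f (b + n) *
          conj (tc (fun z => z ^ n * f z) (b + n)) * (r : ℂ) ^ (2 * (b + n))) -
        tc L n * ((b : ℂ) * (tc f b * conj (tc f b)) * (r : ℂ) ^ (2 * b)) := by
      funext j
      rw [tc_powmul hr1p hfd n j]
      have e2 : (r : ℂ) ^ (2 * (j + n)) = (r : ℂ) ^ (2 * j) * (r : ℂ) ^ (2 * n) := by ring
      have e3 : (((r ^ 2 : ℝ)) : ℂ) ^ j = (r : ℂ) ^ (2 * j) := by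
        push_cast; rw [← pow_mul]
      rw [e2, e3]
      field_simp
    rw [e]
    exact p4
  have hco := coeff_zero (fun j : ℕ => tc f (j + n) * conj (tc f j) -
        tc L n * ((j : ℂ) * (tc f j * conj (tc f j)))) (r1 ^ 2) (by positivity) (by
    intro x hx hxr
    have hs : √x < r1 := by
      rw [Real.sqrt_lt' hr1p]; exact hxr
    have := hser (√x) (Real.sqrt_pos.mpr hx) hs
    rwa [Real.sq_sqrt hx.le] at this)
  intro k
  have := hco k
  linear_combination this


/-- rigidity: in the case of equality with a zero of order `m` the function is `c z ^ m` -/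
theorem rigidity_order (f : ℂ → ℂ) (hf : DifferentiableOn ℂ f (ball 0 1)) {m : ℕ}
    (hm : 1 ≤ m) {g : ℂ → ℂ} (hg : AnalyticAt ℂ g 0) (hg0' : g 0 ≠ 0)
    (hfg : ∀ᶠ z in 𝓝 (0 : ℂ), f z = z ^ m * g z)
    (hE : ∀ r ∈ Ioo (0:ℝ) 1, 0 < Ef f r)
    (hC : ∀ r ∈ Ioo (0:ℝ) 1, ∃ C : ℝ, ∀ θ : ℝ,
      ‖circleMap 0 r θ * deriv f (circleMap 0 r θ)‖ =
        C * (‖f (circleMap 0 r θ)‖ * Real.exp (‖f (circleMap 0 r θ)‖ ^ 2 / (2 * Ef f r)))) :
    ∃ c : ℂ, ∀ z ∈ ball (0:ℂ) 1, f z = c * z ^ m := by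
  have hmc : (m : ℂ) ≠ 0 := by
    have : m ≠ 0 := by omega
    exact_mod_cast this
  -- the coefficients of `f`
  obtain ⟨δ, hδ, hball⟩ := Metric.eventually_nhds_iff_ball.mp (hg.eventually_analyticAt.and hfg)
  have hgd : DifferentiableOn ℂ g (ball 0 δ) := fun z hz =>
    (hball z hz).1.differentiableAt.differentiableWithinAt
  have hfe : f =ᶠ[𝓝 (0 : ℂ)] fun z => z ^ m * g z := hfg
  have htc : ∀ k, tc f k = tc (fun z => z ^ m * g z) k := by
    intro k
    unfold tc
    rw [hfe.iteratedDeriv_eq k]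
  have hlow : ∀ k, k < m → tc f k = 0 := fun k hk => by
    rw [htc, tc_powmul_lt hδ hgd m k hk]
  have hlead : tc f m ≠ 0 := by
    have h1 := tc_powmul hδ hgd m 0
    rw [zero_add] at h1
    rw [htc, h1, tc_zero]
    exact hg0'
  have hid := fun n hn => coeff_identity_order f hf hm hg hg0' hfg hE hC n hn
  -- products of coefficients
  have hprod : ∀ n, 1 ≤ n → ∀ k, tc f k ≠ 0 →
      (m : ℂ) * (tc f (k + n) * tc f m) = k * (tc f (m + n) * tc f k) := by
    intro n hn k hk
    obtain ⟨l, hl⟩ := hid n hn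
    have e1 : tc f (k + n) = l * k * tc f k := by
      apply mul_right_cancel₀ (b := conj (tc f k)) (by simpa using hk)
      linear_combination hl k
    have e2 : tc f (m + n) = l * m * tc f m := by
      apply mul_right_cancel₀ (b := conj (tc f m)) (by simpa using hlead)
      linear_combination hl m
    rw [e1, e2]; ring
  have hvan : ∀ k, m < k → tc f k = 0 := by
    intro k hk
    by_contra hne
    -- the coefficient with index `2 k - m` does not vanish
    have a1 := hprod (k - m) (by omega) k hne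
    rw [show m + (k - m) = k by omega, show k + (k - m) = 2 * k - m by omega] at a1
    have hk0 : (k : ℂ) ≠ 0 := by
      have : k ≠ 0 := by omega
      exact_mod_cast this
    have hne2 : tc f (2 * k - m) ≠ 0 := by
      intro h
      rw [h, zero_mul, mul_zero] at a1
      exact mul_ne_zero hk0 (mul_ne_zero hne hne) a1.symm
    -- two ways to reach `3 k - 2 m`
    have a2 := hprod (2 * k - m - m) (by omega) k hne
    rw [show k + (2 * k - m - m) = 3 * k - 2 * m by omega,
      show m + (2 * k - m - m) = 2 * k - m by omega] at a2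
    have a3 := hprod (k - m) (by omega) (2 * k - m) hne2
    rw [show 2 * k - m + (k - m) = 3 * k - 2 * m by omega,
      show m + (k - m) = k by omega] at a3
    have a4 : (k : ℂ) * (tc f (2 * k - m) * tc f k) =
        ((2 * k - m : ℕ) : ℂ) * (tc f (2 * k - m) * tc f k) := by
      rw [← a2, a3]; ring
    have a5 := mul_right_cancel₀ (mul_ne_zero hne2 hne) a4
    have a6 : k = 2 * k - m := by exact_mod_cast a5
    omega
  refine ⟨tc f m, fun z hz => ?_⟩
  have hs := hasSum_tc hf hz
  have hs2 : HasSum (fun n : ℕ => tc f n * z ^ n) (tc f m * z ^ m) := by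
    refine hasSum_single m fun n hn => ?_
    rcases lt_or_gt_of_ne hn with h | h
    · rw [hlow n h, zero_mul]
    · rw [hvan n h, zero_mul]
  exact hs.unique hs2

end Pool.Agent.Y841.CM
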